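import Pool.Agent.Helper94.US.Stm

set_option autoImplicit false

/-!
# Universal Skolem sets of density one: piece E1a (squarefree monic reduction over the integers)
-/

namespace Pool.Agent.Helper31.US

open Polynomial

/-- descent to a squarefree monic polynomial -/
theorem exists_sqfree (n : ℕ) : ∀ (χ g : ℤ[X]) (m : ℕ), g.natDegree ≤ n → g.Monic →
    g.coeff 0 ≠ 0 → 1 ≤ m → χ ∣ g ^ m →
    ∃ (g' : ℤ[X]) (m' : ℕ), g'.Monic ∧ g'.coeff 0 ≠ 0 ∧ 1 ≤ m' ∧ χ ∣ g' ^ m' ∧ Squarefree g' := by
  induction n with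
  | zero =>
    intro χ g m hd hg h0 hm hdvd
    have h1 : g = 1 := eq_one_of_monic_natDegree_zero hg (by omega)
    refine ⟨g, m, hg, h0, hm, hdvd, ?_⟩
    rw [h1]
    exact squarefree_one
  | succ n ih =>
    intro χ g m hd hg h0 hm hdvd
    by_cases hs : Squarefree g
    · exact ⟨g, m, hg, h0, hm, hdvd, hs⟩
    · unfold Squarefree at hs
      push Not at hs
      obtain ⟨h, ⟨q, hq⟩, hu⟩ := hs
      have hlc : h.leadingCoeff * h.leadingCoeff * q.leadingCoeff = 1 := by
        have := congrArg leadingCoeff hq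
        rw [hg.leadingCoeff, leadingCoeff_mul, leadingCoeff_mul] at this
        exact this.symm
      have hlu : IsUnit h.leadingCoeff := by
        rw [mul_assoc] at hlc
        exact IsUnit.of_mul_eq_one _ hlc
      have hl2 : h.leadingCoeff * h.leadingCoeff = 1 := Int.isUnit_mul_self hlu
      have hql : q.leadingCoeff = 1 := by rw [hl2, one_mul] at hlc; exact hlc
      have hne : h ≠ 0 := by
        rintro rfl
        simp at hl2
      have hqne : q ≠ 0 := by
        rintro rfl
        simp at hql
      have hdeg : 1 ≤ h.natDegree := by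
        by_contra hlt
        have hz : h.natDegree = 0 := by omega
        apply hu
        rw [eq_C_of_natDegree_eq_zero hz]
        have : h.leadingCoeff = h.coeff 0 := by rw [leadingCoeff, hz]
        rw [this] at hlu
        exact hlu.map C
      have hgd : g.natDegree = h.natDegree + h.natDegree + q.natDegree := by
        rw [hq, natDegree_mul (mul_ne_zero hne hne) hqne, natDegree_mul hne hne]
      have hm' : (C h.leadingCoeff * (h * q)).Monic := by
        rw [Monic, leadingCoeff_mul, leadingCoeff_C, leadingCoeff_mul, hql, mul_one, hl2]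
      have hd' : (C h.leadingCoeff * (h * q)).natDegree ≤ n := by
        have h1 := natDegree_C_mul_le h.leadingCoeff (h * q)
        have h2 := natDegree_mul_le (p := h) (q := q)
        omega
      have h0' : (C h.leadingCoeff * (h * q)).coeff 0 ≠ 0 := by
        rw [coeff_C_mul, mul_coeff_zero]
        rw [hq, mul_coeff_zero, mul_coeff_zero] at h0
        have ha : h.coeff 0 ≠ 0 := by
          intro hz
          apply h0
          rw [hz]; ring
        have hb : q.coeff 0 ≠ 0 := by
          intro hz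
          apply h0
          rw [hz]; ring
        exact mul_ne_zero (leadingCoeff_ne_zero.2 hne) (mul_ne_zero ha hb)
      have hdv : g ∣ (C h.leadingCoeff * (h * q)) ^ 2 := by
        refine ⟨q, ?_⟩
        have hc : (C h.leadingCoeff : ℤ[X]) * C h.leadingCoeff = 1 := by
          rw [← C_mul, hl2, C_1]
        rw [hq]
        linear_combination (h * q) ^ 2 * hc
      refine ih χ _ (2 * m) hd' hm' h0' (by omega) ?_
      rw [pow_mul]
      exact hdvd.trans (pow_dvd_pow_of_dvd hdv m)

/-- a squarefree monic integer polynomial is squarefree over the rationals -/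
theorem sqfree_map {g : ℤ[X]} (hg : g.Monic) (hs : Squarefree g) :
    Squarefree (g.map (algebraMap ℤ ℚ)) := by
  intro h hh
  by_contra hu
  have hne : h ≠ 0 := by
    rintro rfl
    rw [mul_zero, zero_dvd_iff] at hh
    exact (hg.map (algebraMap ℤ ℚ)).ne_zero hh
  have hmon : (h * C h.leadingCoeff⁻¹).Monic := monic_mul_leadingCoeff_inv hne
  have hass : Associated (h * C h.leadingCoeff⁻¹) h := by
    have hun : IsUnit (C h.leadingCoeff⁻¹ : ℚ[X]) :=
      isUnit_C.2 (isUnit_iff_ne_zero.2 (inv_ne_zero (leadingCoeff_ne_zero.2 hne)))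
    exact associated_mul_unit_left h _ hun
  have hd1 : (h * C h.leadingCoeff⁻¹) * (h * C h.leadingCoeff⁻¹) ∣ g.map (algebraMap ℤ ℚ) :=
    ((hass.mul_mul hass).dvd).trans hh
  obtain ⟨h', hh'⟩ := IsIntegrallyClosed.eq_map_mul_C_of_dvd ℚ hg (dvd_of_mul_left_dvd hd1)
  rw [hmon.leadingCoeff, C_1, mul_one] at hh'
  have hinj : Function.Injective (algebraMap ℤ ℚ) := (algebraMap ℤ ℚ).injective_int
  have hmon' : h'.Monic := by
    rw [← hh'] at hmon
    exact monic_of_injective hinj hmon
  have hd2 : h' * h' ∣ g := by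
    rw [← map_dvd_map (algebraMap ℤ ℚ) hinj (hmon'.mul hmon'), Polynomial.map_mul, hh']
    exact hd1
  have hu' : IsUnit h' := hs h' hd2
  apply hu
  have h3 : IsUnit (h'.map (algebraMap ℤ ℚ)) := hu'.map (mapRingHom (algebraMap ℤ ℚ))
  rw [hh'] at h3
  exact hass.isUnit h3

theorem t_E1a : Pool.Agent.Helper94.US.E1a := by
  intro χ hχ h0
  obtain ⟨g, m, hg, hg0, hm, hdvd, hs⟩ :=
    exists_sqfree χ.natDegree χ χ 1 le_rfl hχ h0 le_rfl (by rw [pow_one])
  have hsep : (g.map (algebraMap ℤ ℚ)).Separable :=
    PerfectField.separable_iff_squarefree.2 (sqfree_map hg hs)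
  obtain ⟨a, b, hab⟩ := hsep
  obtain ⟨c, hc, hA⟩ := IsLocalization.integerNormalization_spec (nonZeroDivisors ℤ) a
  obtain ⟨d, hd, hB⟩ := IsLocalization.integerNormalization_spec (nonZeroDivisors ℤ) b
  set A := IsLocalization.integerNormalization (nonZeroDivisors ℤ) a with hAdef
  set B := IsLocalization.integerNormalization (nonZeroDivisors ℤ) b with hBdef
  have hc0 : c ≠ 0 := nonZeroDivisors.ne_zero hc
  have hd0 : d ≠ 0 := nonZeroDivisors.ne_zero hd
  refine ⟨g, C d * A, C c * B, c * d, m, hg, hg0, ?_, mul_ne_zero hc0 hd0, hm, hdvd⟩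
  have hinj : Function.Injective (algebraMap ℤ ℚ) := (algebraMap ℤ ℚ).injective_int
  apply Polynomial.map_injective (algebraMap ℤ ℚ) hinj
  rw [Polynomial.map_add, Polynomial.map_mul, Polynomial.map_mul, Polynomial.map_mul,
    Polynomial.map_mul, hA, hB, Polynomial.map_C, Polynomial.map_C, Polynomial.map_C,
    ← derivative_map, map_mul, C_mul]
  have e1 : c • a = C (algebraMap ℤ ℚ c) * a := by
    rw [← Polynomial.smul_eq_C_mul]
    ext i
    simp
  have e2 : d • b = C (algebraMap ℤ ℚ d) * b := by
    rw [← Polynomial.smul_eq_C_mul]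
    ext i
    simp
  rw [e1, e2]
  linear_combination (C (algebraMap ℤ ℚ c) * C (algebraMap ℤ ℚ d)) * hab

end Pool.Agent.Helper31.US
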